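import Pool.Agent.H60.Godefroy.Copy

/-!
# MP_32963f_an : a scattered compact space which is not Corson, and a 1-norming M-basis of `C(K)`

The space is the compact space of the coherent finite sets of Todorcevic's function on `ω₁`.
-/

set_option autoImplicit false

open Set Topology

namespace Pool.Agent.Results.MP_32963f_an.OneNorming

/-- The well-ordered set of order type `ω₁`. -/
abbrev Omega1 : Type := (Cardinal.aleph 1).ord.ToType

/-- The interval `[0, ω₁]` of ordinals (with the order topology of the ordinals). -/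
abbrev OmegaInterval : Type 1 := Set.Iic (Ordinal.omega 1 : Ordinal.{0})

/-- `K` is scattered: every nonempty subset has an isolated point. -/
def IsScattered (K : Type) [TopologicalSpace K] : Prop :=
  ∀ s : Set K, s.Nonempty → ∃ x ∈ s, ∃ U : Set K, IsOpen U ∧ U ∩ s = {x}

/-- `K` is an Eberlein compactum: it is homeomorphic to a weakly compact subset of a Banach
space. -/
def IsEberlein (K : Type) [TopologicalSpace K] : Prop :=
  ∃ (E : Type) (_ : NormedAddCommGroup E) (_ : NormedSpace ℝ E) (_ : CompleteSpace E),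
    ∃ S : Set (WeakSpace ℝ E), IsCompact S ∧ Nonempty (K ≃ₜ S)

/-- `(x i)` is a Markushevich basis of `X` with the biorthogonal functionals `f i`. -/
structure IsMBasis {X : Type} [NormedAddCommGroup X] [NormedSpace ℝ X] {I : Type}
    (x : I → X) (f : I → (X →L[ℝ] ℝ)) : Prop where
  biorthogonal_self : ∀ i, f i (x i) = 1
  biorthogonal_ne : ∀ i j, i ≠ j → f i (x j) = 0
  dense : Dense (Submodule.span ℝ (Set.range x) : Set X)
  total : ∀ y : X, (∀ i, f i y = 0) → y = 0

/-- The span of the `f i` is 1-norming: for every `y` the supremum of `|g y|` over the `g` of norm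
at most one in the span of the `f i` is `‖y‖`. -/
def IsOneNorming {X : Type} [NormedAddCommGroup X] [NormedSpace ℝ X] {I : Type}
    (f : I → (X →L[ℝ] ℝ)) : Prop :=
  ∀ y : X, IsLUB {r : ℝ | ∃ g ∈ Submodule.span ℝ (Set.range f), ‖g‖ ≤ 1 ∧ r = |g y|} ‖y‖

/-- `C(K)` has a 1-norming M-basis of characteristic functions of nonempty clopen sets, whose
functionals are combinations of four point evaluations with coefficients `-1, 0, 1`. -/
def HasSimpleBasis (K : Type) [TopologicalSpace K] [CompactSpace K] : Prop :=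
  ∃ (I : Type) (x : I → C(K, ℝ)) (f : I → (C(K, ℝ) →L[ℝ] ℝ)),
    IsMBasis x f ∧ IsOneNorming f ∧
    (∀ i, ∃ U : Set K, IsClopen U ∧ U.Nonempty ∧
      ∀ z, (z ∈ U → x i z = 1) ∧ (z ∉ U → x i z = 0)) ∧
    (∀ i, ∃ (z : Fin 4 → K) (c : Fin 4 → ℤ), (∀ k, |c k| ≤ 1) ∧
      ∀ y : C(K, ℝ), f i y = ∑ k, (c k : ℝ) * y (z k))

/-- `j` embeds `K` as a closed set in `{0,1}^ω₁` in which the points of finite support are
dense. -/
def EmbedsFinitely (K : Type) [TopologicalSpace K] : Prop :=
  ∃ j : K → (Omega1 → Bool), IsClosedEmbedding j ∧ Dense {z : K | {a | j z a = true}.Finite}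

theorem result : ∃ (K : Type) (_ : TopologicalSpace K) (_ : CompactSpace K) (_ : T2Space K),
    Cardinal.mk K = Cardinal.aleph 1 ∧ IsScattered K ∧ EmbedsFinitely K ∧
    (∃ e : OmegaInterval → K, IsClosedEmbedding e) ∧ ¬ IsEberlein K ∧ HasSimpleBasis K := by
  obtain ⟨R⟩ := Pool.Agent.H60.Godefroy.exists_system
  refine ⟨R.K, inferInstance, inferInstance, inferInstance,
    Pool.Agent.H60.Godefroy.mk_K R, ?_, ?_, ?_, ?_, ?_⟩
  · exact Pool.Agent.Godefroy.RhoSystem.scattered (R := R)
  · refine ⟨fun z => z.1, R.isClosed_inK.isClosedEmbedding_subtypeVal, ?_⟩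
    rw [dense_iff_inter_open]
    rintro V hV ⟨z, hz⟩
    obtain ⟨G, h, hG⟩ := Pool.Agent.Godefroy.RhoSystem.exists_finite_mem hV (x := z) hz
    refine ⟨R.pt G h, hG, ?_⟩
    have h2 : {a | (R.pt (G : Set Omega1) h).1 a = true} = (G : Set Omega1) :=
      Pool.Agent.Godefroy.RhoSystem.pt_set (R := R) (G : Set Omega1) h
    rw [mem_ofPred_eq, h2]
    exact G.finite_toSet
  · exact ⟨Pool.Agent.H60.Godefroy.seg R, Pool.Agent.H60.Godefroy.seg_isClosedEmbedding R⟩
  · rintro ⟨E, _, _, _, S, -, ⟨h⟩⟩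
    exact Pool.Agent.H60.Godefroy.not_eberlein' R E S h
  · refine ⟨R.Idx, R.vec, R.fnl, ⟨?_, ?_, ?_, ?_⟩, ?_, ?_, ?_⟩
    · exact Pool.Agent.Godefroy.RhoSystem.biorth_eq
    · exact Pool.Agent.Godefroy.RhoSystem.biorth_ne
    · exact Pool.Agent.Godefroy.RhoSystem.dense_S
    · exact Pool.Agent.Godefroy.RhoSystem.total
    · intro y
      constructor
      · rintro r ⟨g, -, hg, rfl⟩
        refine (g.le_opNorm y).trans ?_
        exact mul_le_of_le_one_left (norm_nonneg y) hg
      · intro b hb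
        by_contra hcon
        obtain ⟨g, hg1, hg2, hg3⟩ := Pool.Agent.H60.Godefroy.one_norming (R := R) y b
          (not_le.1 hcon)
        exact absurd (hb ⟨g, hg1, hg2, rfl⟩) (not_le.2 hg3)
    · intro i
      obtain ⟨U, h1, h2, h3⟩ := Pool.Agent.H60.Godefroy.vec_eq i
      refine ⟨U, h1, h2, fun z => ⟨fun hz => ?_, fun hz => ?_⟩⟩
      · rw [h3, indicator_of_mem hz]
      · rw [h3, indicator_of_notMem hz]
    · exact Pool.Agent.H60.Godefroy.fnl_eq

end Pool.Agent.Results.MP_32963f_an.OneNorming
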